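import Pool.Agent.H590.NL.Stm

/-!
# Project NL (helper590), task CB: Cauchy-Binet
-/

set_option autoImplicit false

noncomputable section

open scoped BigOperators

namespace H332NLCB

open H590NL

theorem expand (n : ℕ) (κ : Type) [Fintype κ] (v : κ → V n) (a : κ → ℝ) :
    (Matrix.of fun i j => ∑ k, a k * (v k i * v k j) : Matrix (Fin n) (Fin n) ℝ).det =
      ∑ f : Fin n → κ, (∏ i, a (f i) * v (f i) i) * (dm v f).det := by
  have h1 := MultilinearMap.map_sum
    (Matrix.detRowAlternating : (Fin n → ℝ) [⋀^Fin n]→ₗ[ℝ] ℝ).toMultilinearMap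
    (fun (i : Fin n) (k : κ) => (a k * v k i) • v k)
  have h2 : (Matrix.of fun i j => ∑ k, a k * (v k i * v k j) : Matrix (Fin n) (Fin n) ℝ) =
      fun i => ∑ k, (a k * v k i) • v k := by
    ext i j
    rw [Matrix.of_apply, Finset.sum_apply]
    refine Finset.sum_congr rfl fun k _ => ?_
    rw [Pi.smul_apply, smul_eq_mul]
    ring
  rw [h2]
  refine h1.trans (Finset.sum_congr rfl fun f _ => ?_)
  exact MultilinearMap.map_smul_univ
    (Matrix.detRowAlternating : (Fin n → ℝ) [⋀^Fin n]→ₗ[ℝ] ℝ).toMultilinearMap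
    (fun i => a (f i) * v (f i) i) (fun i => v (f i))

theorem CB : S_CB := by
  intro n κ _ v a
  rw [expand]
  have hn : (n.factorial : ℝ) ≠ 0 := by exact_mod_cast Nat.factorial_ne_zero n
  have h1 : ∀ σ : Equiv.Perm (Fin n),
      ∑ f : Fin n → κ, (∏ i, a (f i) * v (f i) i) * (dm v f).det =
      ∑ f : Fin n → κ, (∏ i, a (f i)) * (dm v f).det *
        ((Equiv.Perm.sign σ : ℤ) * ∏ i, dm v f (σ i) i) := by
    intro σ
    rw [← Equiv.sum_comp (Equiv.arrowCongr σ.symm (Equiv.refl κ))]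
    refine Finset.sum_congr rfl fun f _ => ?_
    have e1 : (Equiv.arrowCongr σ.symm (Equiv.refl κ)) f = fun i => f (σ i) := by
      funext i
      rfl
    have e2 : dm v (fun i => f (σ i)) = (dm v f).submatrix σ id := rfl
    rw [e1, e2, Matrix.det_permute, Finset.prod_mul_distrib,
      Equiv.prod_comp σ fun i => a (f i)]
    have e3 : ∏ i, v (f (σ i)) i = ∏ i, dm v f (σ i) i := rfl
    rw [e3]
    ring
  have h2 : (n.factorial : ℝ) *
      ∑ f : Fin n → κ, (∏ i, a (f i) * v (f i) i) * (dm v f).det =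
      ∑ f : Fin n → κ, (dm v f).det ^ 2 * ∏ i, a (f i) := by
    have h3 : (n.factorial : ℝ) *
        ∑ f : Fin n → κ, (∏ i, a (f i) * v (f i) i) * (dm v f).det =
        ∑ _σ : Equiv.Perm (Fin n), ∑ f : Fin n → κ, (∏ i, a (f i) * v (f i) i) *
          (dm v f).det := by
      rw [Finset.sum_const, Finset.card_univ, Fintype.card_perm, Fintype.card_fin, nsmul_eq_mul]
    rw [h3, Finset.sum_congr rfl fun σ _ => h1 σ, Finset.sum_comm]
    refine Finset.sum_congr rfl fun f _ => ?_
    rw [← Finset.mul_sum, ← Matrix.det_apply']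
    ring
  rw [← h2, ← mul_assoc, one_div, inv_mul_cancel₀ hn, one_mul]

end H332NLCB
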